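import Pool.Agent.Q117.LF.Row5

/-!
MP_b51559_nt (a twin prime in every interval `(n + 4, 2 ^ (n + 4))`): at every scale of the interval every constellation of consecutive almost twins, up to a constant
times their average distance, occurs in the right order of magnitude, with a prime and a product of two primes at any two places.
-/

set_option autoImplicit false

namespace Pool.Agent.Results.MP_b51559_nt.AllConstellationsInInterval

/-- all prime factors of `m` are `> z` (so `0` is not rough) -/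
def Rough (z : ℝ) (m : ℤ) : Prop := ∀ p : ℕ, p.Prime → (p : ℤ) ∣ m → z < p

/-- at most two prime factors (with multiplicity), all `> z` -/
def AtMostTwo (z : ℝ) (m : ℤ) : Prop := m.natAbs.primeFactorsList.length ≤ 2 ∧ Rough z m

/-- `m` is the first member of an almost twin pair -/
def Twin (z : ℝ) (m : ℤ) : Prop := Rough z m ∧ Rough z (m + 2)

/-- the numbers `h`, `h + 2`, `h ∈ H` -/
def Both (H : Finset ℤ) : Finset ℤ := H ∪ H.image (fun h => h + 2)

/-- no prime divides one of the `r + e` for every `r` -/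
def Admissible (E : Finset ℤ) : Prop := ∀ p : ℕ, p.Prime → ∃ r : ℤ, ∀ e ∈ E, ¬ (p : ℤ) ∣ r + e

/-- the singular series of `E`, truncated at `y` -/
noncomputable def sing (y : ℕ) (E : Finset ℤ) : ℝ :=
  ∏ p ∈ (Finset.Icc 1 y).filter Nat.Prime, ((1 - ((E.image (fun e => e % (p : ℤ))).card : ℝ) / p) / (1 - 1 / (p : ℝ)) ^ E.card)

/-- the `m ∈ (X, 2X]` such that the almost twins at distance `≤ L` from `m` are exactly the `m + h`, `h ∈ H`, the number `m + e₁` is prime and `m + e₂`
has at most two prime factors, all `> X ^ (1/9)` -/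
def Good (z X L : ℝ) (H : Finset ℤ) (e₁ e₂ : ℤ) : Set ℕ :=
  {m : ℕ | X < m ∧ (m : ℝ) ≤ 2 * X ∧ (∀ k : ℤ, |((k - m : ℤ) : ℝ)| ≤ L → (Twin z k ↔ k - m ∈ H)) ∧ ((m : ℤ) + e₁).toNat.Prime ∧
    AtMostTwo (X ^ (1 / 9 : ℝ)) (m + e₂)}

theorem mem_Both {H : Finset ℤ} {e : ℤ} : e ∈ Both H ↔ e ∈ H ∨ e - 2 ∈ H := by
  unfold Both
  rw [Finset.mem_union, Finset.mem_image]
  constructor
  · rintro (h | ⟨h, hh, rfl⟩)
    · exact Or.inl h
    · right
      have : h + 2 - 2 = h := by ring
      rwa [this]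
  · rintro (h | h)
    · exact Or.inl h
    · exact Or.inr ⟨e - 2, h, by ring⟩

/-- three numbers `e, e + 2, e + 4` are not all among the shifts of an admissible set -/
theorem no_three {H : Finset ℤ} (h : Admissible (Both H)) {e : ℤ} (h0 : e ∈ Both H) (h2 : e + 2 ∈ Both H) (h4 : e + 4 ∈ Both H) : False := by
  obtain ⟨r, hr⟩ := h 3 Nat.prime_three
  have a := hr _ h0
  have b := hr _ h2
  have c := hr _ h4
  push_cast at a b c
  omega

theorem card_Both {H : Finset ℤ} (h : Admissible (Both H)) : (Both H).card = 2 * H.card := by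
  unfold Both
  rw [Finset.card_union_of_disjoint, Finset.card_image_of_injective]
  · ring
  · intro a b hab
    simpa using hab
  · rw [Finset.disjoint_left]
    intro e he he'
    rw [Finset.mem_image] at he'
    obtain ⟨x, hx, rfl⟩ := he'
    apply no_three h (e := x)
    · exact mem_Both.2 (Or.inl hx)
    · exact mem_Both.2 (Or.inl he)
    · refine mem_Both.2 (Or.inr ?_)
      have : x + 4 - 2 = x + 2 := by ring
      rwa [this]

theorem result : ∀ k : ℕ, ∃ t : ℕ, 1 ≤ t ∧ ∃ c : ℝ, 0 < c ∧ ∃ ν : ℝ, 0 < ν ∧ ∃ n₀ : ℕ, ∀ n : ℕ, n₀ ≤ n → ∀ X : ℝ, (n : ℝ) + 4 ≤ X → X ≤ 2 ^ (n + 3) →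
    ∀ H : Finset ℤ, H.card ≤ k → (∀ h ∈ H, 0 ≤ h ∧ (h : ℝ) ≤ ν * Real.log X ^ 2) → Admissible (Both H) →
    ∀ e₁ ∈ Both H, ∀ e₂ ∈ Both H, e₁ ≠ e₂ → ∀ y : ℕ, X ≤ y →
      Good (X ^ (1 / (t : ℝ))) X (ν * Real.log X ^ 2) H e₁ e₂ ⊆ Set.Ioc (n + 4) (2 ^ (n + 4)) ∧
      c * (X / Real.log X ^ (2 * H.card) * sing y (Both H)) ≤
        ((Good (X ^ (1 / (t : ℝ))) X (ν * Real.log X ^ 2) H e₁ e₂).ncard : ℝ) := by
  intro k
  obtain ⟨t, ht, c, hc, ν, hν, X0, h⟩ := Pool.Agent.Q117.LF.fswS (2 * k) 1 (fun _ => {0, 2}) (fun γ => ⟨0, by decide⟩)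
  have hev : ∀ᶠ X : ℝ in Filter.atTop, ν * Real.log X ^ 2 + 2 ≤ X := by
    have h4 : Filter.Tendsto (fun X : ℝ => (Real.log X) ^ 2 / (1 * X + 0)) Filter.atTop (nhds 0) :=
      Real.tendsto_pow_log_div_mul_add_atTop 1 0 2 one_ne_zero
    have h5 := (h4.const_mul ν).eventually (gt_mem_nhds (show ν * 0 < 1 / 2 by norm_num))
    filter_upwards [h5, Filter.eventually_gt_atTop 4] with X g1 g2
    rw [one_mul, add_zero, ← mul_div_assoc, div_lt_iff₀ (by linarith)] at g1
    linarith
  obtain ⟨X1, hX1⟩ := Filter.eventually_atTop.1 hev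
  refine ⟨t, ht, c, hc, ν, hν, ⌈max X0 X1⌉₊, fun n hn X hnX hXn H hH hHν ha e₁ m₁ e₂ m₂ hne y hy => ?_⟩
  have hnr : max X0 X1 ≤ (n : ℝ) := (Nat.le_ceil _).trans (by exact_mod_cast hn)
  have hX0 : X0 ≤ X := (le_max_left _ _).trans (by linarith)
  have hX1' := hX1 X ((le_max_right _ _).trans (by linarith))
  have hfin : (Good (X ^ (1 / (t : ℝ))) X (ν * Real.log X ^ 2) H e₁ e₂).Finite := by
    apply Set.Finite.subset (Set.finite_Iic ⌊2 * X⌋₊)
    rintro n ⟨-, h2, -⟩
    exact Nat.le_floor h2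
  constructor
  · rintro m ⟨g1, g2, -⟩
    rw [Set.mem_Ioc]
    constructor
    · have : ((n + 4 : ℕ) : ℝ) < m := by push_cast; linarith
      exact_mod_cast this
    · have : (m : ℝ) ≤ ((2 ^ (n + 4) : ℕ) : ℝ) := by
        push_cast
        calc (m : ℝ) ≤ 2 * X := g2
          _ ≤ 2 * 2 ^ (n + 3) := by linarith
          _ = 2 ^ (n + 4) := by ring
      exact_mod_cast this
  · have hE : ∀ e ∈ Both H, 0 ≤ e ∧ (e : ℝ) ≤ X := by
      intro e he
      rcases mem_Both.1 he with he | he
      · exact ⟨(hHν e he).1, by linarith [(hHν e he).2]⟩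
      · have h1 := (hHν _ he).1
        have h2 := (hHν _ he).2
        push_cast at h2
        exact ⟨by omega, by linarith⟩
    have hmain := h X hX0 (Both H) (by rw [card_Both ha]; omega) hE ha e₁ m₁ e₂ m₂ hne y hy
    rw [card_Both ha] at hmain
    have hsing : Pool.Agent.Q117.LF.sgF y (Both H) = sing y (Both H) := by
      unfold Pool.Agent.Q117.LF.sgF sing
      rfl
    rw [hsing] at hmain
    refine hmain.trans ?_
    rw [Nat.cast_le]
    apply Set.ncard_le_ncard _ hfin
    rintro m ⟨g1, g2, g3, g4, g5, g6⟩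
    refine ⟨g1, g2, fun k hk => ⟨fun hT => ?_, fun hk' => ?_⟩, g3, g4⟩
    · have hR : ∀ x : ℤ, Rough (X ^ (1 / (t : ℝ))) x → Pool.Agent.Q117.LF.Ro (X ^ (1 / (t : ℝ))) x := fun x hx => hx
      have hc2 : (({0, 2} : Finset ℤ)).card = 2 := by decide
      have h0 := g6 0 (k - m) (by rw [hc2]; exact hk) (by
        intro f hf
        have hf' : f ∈ ({0, 2} : Finset ℤ) := hf
        simp only [Finset.mem_insert, Finset.mem_singleton] at hf'
        apply hR
        rcases hf' with rfl | rfl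
        · have : (m : ℤ) + (k - m) + 0 = k := by ring
          rw [this]; exact hT.1
        · have : (m : ℤ) + (k - m) + 2 = k + 2 := by ring
          rw [this]; exact hT.2)
      have u0 : k - m ∈ Both H := by
        have := h0 0 (show (0 : ℤ) ∈ ({0, 2} : Finset ℤ) by decide)
        rwa [add_zero] at this
      have u2 : k - m + 2 ∈ Both H := h0 2 (show (2 : ℤ) ∈ ({0, 2} : Finset ℤ) by decide)
      rcases mem_Both.1 u0 with h1 | h1
      · exact h1
      · exfalso
        apply no_three ha (e := k - m - 2)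
        · exact mem_Both.2 (Or.inl h1)
        · have : k - m - 2 + 2 = k - m := by ring
          rw [this]; exact u0
        · have : k - m - 2 + 4 = k - m + 2 := by ring
          rw [this]; exact u2
    · constructor
      · have h0 : Rough _ _ := g5 (k - m) (mem_Both.2 (Or.inl hk'))
        have e : (m : ℤ) + (k - m) = k := by ring
        rwa [e] at h0
      · have h0 : Rough _ _ := g5 (k - m + 2) (mem_Both.2 (Or.inr (by
          have : k - m + 2 - 2 = k - m := by ring
          rwa [this])))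
        have e : (m : ℤ) + (k - m + 2) = k + 2 := by ring
        rwa [e] at h0

end Pool.Agent.Results.MP_b51559_nt.AllConstellationsInInterval
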