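import Pool.Agent.Q138.PS.UX
import Pool.Agent.Results.MP_b51559_nt.ThirdOfDifferences

/-!
# A third of the even numbers `2 r ⌊α P(n)⌋` are differences of primes at every scale, in every residue class

Let `q ≥ 2`. Outside a set of real numbers of Hausdorff dimension at most `q / (q + 1 / (q 2 ^ (q - 1)))` (that is `8 / 9` for
`q = 2`) every `α > 0` has the following property. There is `η > 0` such that for all `ε, s > 0` there is `C` such that for all
`r ≥ 1`, `δ > 0`, all large `N`, ALL integers `x` with `C r ^ 2 N ^ (q + 1) ≤ x`, `log x ≤ N ^ η`, ALL `a` prime to `r` and ALL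
integral polynomials `P` of degree `q` with positive leading coefficient and coefficients of size at most `N ^ η`: for at least
`(1 / 3 - ε) N` of the `n ≤ N`, with `k = ⌊α P(n)⌋`, there are at least `x ^ (1 - δ)` primes `p ≡ a (mod r)` with `p + 2 r k`
prime and `x ≤ p`, `p + 2 r k ≤ (1 + s) x`.
-/

set_option autoImplicit false

namespace Pool.Agent.Results.MP_b51559_nt.DifferencesAlongRealMultiples

open Finset Filter Topology
open Pool.Agent.Q138.PS

/-- the number of the primes `p ≡ a (mod r)` with `p + 2 r k` prime and `x ≤ p`, `p + 2 r k ≤ (1 + s) x` -/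
noncomputable def pairs (s : ℝ) (r a x k : ℕ) : ℕ :=
  {p : ℕ | p.Prime ∧ (p + 2 * r * k).Prime ∧ p ≡ a [MOD r] ∧ (x : ℝ) ≤ p ∧
    ((p + 2 * r * k : ℕ) : ℝ) ≤ (1 + s) * x}.ncard

/-- there are at least `x ^ (1 - δ)` such primes -/
def Many (s : ℝ) (r : ℕ) (δ : ℝ) (a x k : ℕ) : Prop := (x : ℝ) ^ (1 - δ) ≤ (pairs s r a x k : ℝ)

open Classical in
/-- the number of the `1 ≤ n ≤ N` for which `k = ⌊α P(n)⌋` has the property `Many` -/
noncomputable def number (s : ℝ) (r : ℕ) (δ : ℝ) (a x : ℕ) (α : ℝ) (P : Polynomial ℤ) (N : ℕ) : ℕ :=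
  ((Icc 1 N).filter fun n : ℕ => Many s r δ a x ⌊α * ((P.eval (n : ℤ) : ℤ) : ℝ)⌋₊).card

theorem number_eq (s : ℝ) (r : ℕ) (δ : ℝ) (a x : ℕ) (α : ℝ) (P : Polynomial ℤ) (N : ℕ) :
    (number s r δ a x α P N : ℝ) = cnP (Many s r δ a x) α P N := by
  classical
  unfold number cnP cn
  refine congrArg _ (congrArg _ ?_)
  ext n
  simp only [mem_filter]

theorem pairs_mod (s : ℝ) (r a x k : ℕ) : pairs s r a x k = pairs s r (a % r) x k := by
  unfold pairs
  congr 1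
  ext p
  have h : p ≡ a [MOD r] ↔ p ≡ a % r [MOD r] :=
    ⟨fun h => h.trans (Nat.mod_modEq a r).symm, fun h => h.trans (Nat.mod_modEq a r)⟩
  simp only [Set.mem_ofPred_eq, h]

theorem pairs_mono {s s' : ℝ} {x x' : ℕ} (hx : x' ≤ x) (h : (1 + s) * (x : ℝ) ≤ (1 + s') * x') (r a k : ℕ) :
    pairs s r a x k ≤ pairs s' r a x' k := by
  unfold pairs
  refine Set.ncard_le_ncard ?_ ((Set.finite_le_nat ⌊(1 + s') * (x' : ℝ)⌋₊).subset fun p hp => Nat.le_floor ?_)
  · rintro p ⟨h1, h2, h3, h4, h5⟩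
    exact ⟨h1, h2, h3, le_trans (by exact_mod_cast hx) h4, h5.trans h⟩
  · refine le_trans ?_ hp.2.2.2.2
    push_cast
    have : (0 : ℝ) ≤ 2 * r * k := by positivity
    linarith

/-- the scales -/
noncomputable def sca (t : ℝ) (m : ℕ) : ℕ := ⌈(1 + t) ^ m⌉₊

/-- every `x ≥ 2 / t` is close to a scale -/
theorem sca_close {t : ℝ} (ht : 0 < t) {x : ℕ} (hx : 1 ≤ x) (hxt : 1 / t ≤ x) :
    ∃ m : ℕ, x ≤ sca t m ∧ (sca t m : ℝ) ≤ (1 + 2 * t) * x ∧ (m : ℝ) * Real.log (1 + t) ≤ Real.log x + Real.log (1 + t) := by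
  have hex : ∃ m : ℕ, (x : ℝ) ≤ (1 + t) ^ m := by
    obtain ⟨m, hm⟩ := pow_unbounded_of_one_lt (x : ℝ) (show (1 : ℝ) < 1 + t by linarith)
    exact ⟨m, hm.le⟩
  classical
  have hx1 : (1 : ℝ) ≤ x := by exact_mod_cast hx
  have hm := Nat.find_spec hex
  set m := Nat.find hex with hmd
  have h1t : 1 ≤ t * x := by
    have := mul_le_mul_of_nonneg_left hxt ht.le
    rwa [mul_one_div_cancel ht.ne'] at this
  rcases Nat.eq_zero_or_pos m with h0 | h0
  · rw [h0, pow_zero] at hm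
    have hxe : (x : ℝ) = 1 := le_antisymm hm hx1
    refine ⟨m, ?_, ?_, ?_⟩
    · unfold sca
      rw [h0, pow_zero, Nat.ceil_one]
      exact_mod_cast hm
    · unfold sca
      rw [h0, pow_zero, Nat.ceil_one, hxe]
      push_cast
      linarith
    · rw [h0, hxe]
      simp only [Nat.cast_zero, zero_mul, Real.log_one, zero_add]
      exact Real.log_nonneg (by linarith)
  · have h1 : ¬ (x : ℝ) ≤ (1 + t) ^ (m - 1) := Nat.find_min hex (by omega)
    push Not at h1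
    have h2 : (1 + t) ^ m = (1 + t) ^ (m - 1) * (1 + t) := by
      rw [← pow_succ]
      congr 1
      omega
    have h3 : ((1 + t) ^ m : ℝ) ≤ (1 + t) * x := by
      rw [h2]
      nlinarith
    refine ⟨m, ?_, ?_, ?_⟩
    · unfold sca
      have : (x : ℝ) ≤ (⌈(1 + t) ^ m⌉₊ : ℝ) := hm.trans (Nat.le_ceil _)
      exact_mod_cast this
    · unfold sca
      have h4 := (Nat.ceil_lt_add_one (show (0 : ℝ) ≤ (1 + t) ^ m by positivity)).le
      nlinarith
    · have h5 : ((m - 1 : ℕ) : ℝ) * Real.log (1 + t) ≤ Real.log x := by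
        rw [← Real.log_pow]
        exact Real.log_le_log (by positivity) h1.le
      have h6 : ((m - 1 : ℕ) : ℝ) = (m : ℝ) - 1 := by
        rw [Nat.cast_sub h0, Nat.cast_one]
      rw [h6] at h5
      linarith

/-- **Theorem.** -/
theorem result (q : ℕ) (hq : 2 ≤ q) :
    ∃ E : Set ℝ, dimH E ≤ ENNReal.ofReal (q / (q + 1 / ((q : ℝ) * 2 ^ (q - 1)))) ∧ ∀ α : ℝ, 0 < α → α ∉ E →
      ∃ η : ℝ, 0 < η ∧ ∀ ε s : ℝ, 0 < ε → 0 < s → ∃ C : ℕ, ∀ r : ℕ, 1 ≤ r → ∀ δ : ℝ, 0 < δ →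
        ∀ᶠ N : ℕ in atTop, ∀ x : ℕ, C * r ^ 2 * N ^ (q + 1) ≤ x → Real.log x ≤ (N : ℝ) ^ η →
          ∀ a : ℕ, a.Coprime r → ∀ P : Polynomial ℤ, P.natDegree = q → 0 < P.leadingCoeff →
          (∀ j, |((P.coeff j : ℤ) : ℝ)| ≤ (N : ℝ) ^ η) → (1 / 3 - ε) * (N : ℝ) ≤ number s r δ a x α P N := by
  classical
  obtain ⟨E, hE, hg⟩ := low_scales (ι := ℕ × ℕ × ℕ × ℕ) q hq
    (fun i m => Many (1 / ((i.1 : ℝ) + 1)) i.2.1 (1 / ((i.2.2.1 : ℝ) + 1)) i.2.2.2 (sca (1 / ((i.1 : ℝ) + 1)) m))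
    (fun i m => sca (1 / ((i.1 : ℝ) + 1)) m)
  refine ⟨E, hE, fun α hα hαE => ?_⟩
  obtain ⟨η, hη, h1⟩ := hg α hα hαE
  refine ⟨η / 2, by positivity, fun ε s hε hs => ?_⟩
  obtain ⟨b, hb⟩ := exists_nat_one_div_lt (show (0 : ℝ) < min (s / 6) (1 / 2) by positivity)
  set t : ℝ := 1 / ((b : ℝ) + 1) with ht
  have ht0 : 0 < t := by positivity
  have ht1 : t < s / 6 := hb.trans_le (min_le_left _ _)
  have ht2 : t < 1 / 2 := hb.trans_le (min_le_right _ _)
  obtain ⟨C, hC⟩ := Pool.Agent.Results.MP_b51559_nt.ThirdOfDifferences.result (ε / 2) t (by positivity) ht0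
  refine ⟨C + 1, fun r hr δ hδ => ?_⟩
  obtain ⟨d', hd'⟩ := exists_nat_one_div_lt (show (0 : ℝ) < min δ 1 by positivity)
  set d : ℝ := 1 / ((d' : ℝ) + 1) with hd
  have hd0 : 0 < d := by positivity
  have hd1 : d < δ := hd'.trans_le (min_le_left _ _)
  have hd2 : d < 1 := hd'.trans_le (min_le_right _ _)
  have hsc : Tendsto (fun m : ℕ => sca t m) atTop atTop := by
    have h2 : Tendsto (fun m : ℕ => (1 + t) ^ m) atTop atTop := tendsto_pow_atTop_atTop_of_one_lt (by linarith)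
    exact (tendsto_nat_ceil_atTop).comp h2
  have h2 := fun a : ℕ => fun ha : a.Coprime r => h1 (b, r, d', a) (1 / 3 - ε / 2) ((C + 1) * r ^ 2) (C + 1) (by linarith)
    (Nat.one_le_iff_ne_zero.2 (by positivity)) (by
      filter_upwards [hsc.eventually (hC r hr d hd0)] with m hm
      intro y hy
      rcases le_or_gt C y with h | h
      · have h3 := hm a ha 1 y le_rfl h (by
          refine le_trans ?_ hy
          have : C * (r ^ 2 * 1 * y) = C * r ^ 2 * y := by ring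
          rw [this]
          have : C * r ^ 2 ≤ (C + 1) * r ^ 2 := Nat.mul_le_mul_right _ (by omega)
          exact Nat.mul_le_mul_right _ this)
        have h4 : (((Icc 1 y).filter (fun k : ℕ => ((sca t m : ℕ) : ℝ) ^ (1 - d) ≤
            ({p : ℕ | p.Prime ∧ (p + 2 * r * 1 * k).Prime ∧ p ≡ a [MOD r] ∧ ((sca t m : ℕ) : ℝ) ≤ p ∧
              ((p + 2 * r * 1 * k : ℕ) : ℝ) ≤ (1 + t) * ((sca t m : ℕ) : ℝ)}.ncard : ℝ))).card : ℝ) =
            cn (Many t r d a (sca t m)) y := by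
          unfold cn
          refine congrArg _ (congrArg _ ?_)
          ext n
          simp only [mem_filter, mul_one, Many, pairs]
        rw [h4] at h3
        have h5 : (0 : ℝ) ≤ ((C + 1 : ℕ) : ℝ) := Nat.cast_nonneg _
        show (1 / 3 - ε / 2) * (y : ℝ) - ((C + 1 : ℕ) : ℝ) ≤ cn (Many t r d a (sca t m)) y
        linarith
      · have h3 : 0 ≤ cn (Many t r d a (sca t m)) y := cn_nonneg _ _
        have h4 : (y : ℝ) ≤ C := by exact_mod_cast h.le
        have h5 : (0 : ℝ) ≤ y := Nat.cast_nonneg _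
        show (1 / 3 - ε / 2) * (y : ℝ) - ((C + 1 : ℕ) : ℝ) ≤ cn (Many t r d a (sca t m)) y
        push_cast
        nlinarith) (ε / 2) (by positivity)
  have h3 : ∀ᶠ N : ℕ in atTop, ∀ a ∈ (range r).filter (fun a => a.Coprime r), ∀ m : ℕ,
      (C + 1) * r ^ 2 * N ^ (q + 1) ≤ sca t m → (m : ℝ) ≤ (N : ℝ) ^ η →
      ∀ P : Polynomial ℤ, P.natDegree = q → 0 < P.leadingCoeff → (∀ j, |((P.coeff j : ℤ) : ℝ)| ≤ (N : ℝ) ^ η) →
      (1 / 3 - ε / 2 - ε / 2) * N ≤ cnP (Many t r d a (sca t m)) α P N :=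
    (Filter.eventually_all_finset _).2 fun a ha => h2 a (mem_filter.1 ha).2
  have hrp : Tendsto (fun N : ℕ => (N : ℝ) ^ (η / 2)) atTop atTop :=
    (tendsto_rpow_atTop (by positivity)).comp tendsto_natCast_atTop_atTop
  have hl0 : 0 < Real.log (1 + t) := Real.log_pos (by linarith)
  filter_upwards [h3, hrp.eventually_ge_atTop (1 / Real.log (1 + t) + 1), eventually_ge_atTop 1,
    tendsto_natCast_atTop_atTop.eventually_ge_atTop (1 / t)] with N hN hN2 hN1 hNt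
  intro x hx hlx a ha P hdeg hlead hco
  have hNr : (1 : ℝ) ≤ N := by exact_mod_cast hN1
  have hN0 : (0 : ℝ) < N := by linarith
  have hxN : N ≤ x := by
    have h3 : N ≤ N ^ (q + 1) := Nat.le_self_pow (by omega) N
    have h6 : N ^ (q + 1) ≤ (C + 1) * r ^ 2 * N ^ (q + 1) := Nat.le_mul_of_pos_left _ (by positivity)
    omega
  have hxNr : (N : ℝ) ≤ x := by exact_mod_cast hxN
  have hx1 : (1 : ℝ) ≤ x := hNr.trans hxNr
  obtain ⟨m, hm1, hm2, hm3⟩ := sca_close ht0 (hN1.trans hxN) (hNt.trans hxNr)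
  have hml : (m : ℝ) ≤ (N : ℝ) ^ η := by
    have h4 : (m : ℝ) ≤ (N : ℝ) ^ (η / 2) * (1 / Real.log (1 + t)) + 1 := by
      have h5 : (m : ℝ) * Real.log (1 + t) ≤ (N : ℝ) ^ (η / 2) + Real.log (1 + t) := by linarith
      have h6 : (m : ℝ) * Real.log (1 + t) * (1 / Real.log (1 + t)) ≤
          ((N : ℝ) ^ (η / 2) + Real.log (1 + t)) * (1 / Real.log (1 + t)) := by gcongr
      have h7 : (m : ℝ) * Real.log (1 + t) * (1 / Real.log (1 + t)) = m := by field_simp
      have h8 : ((N : ℝ) ^ (η / 2) + Real.log (1 + t)) * (1 / Real.log (1 + t)) =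
          (N : ℝ) ^ (η / 2) * (1 / Real.log (1 + t)) + 1 := by field_simp
      linarith
    have h5 : (N : ℝ) ^ η = (N : ℝ) ^ (η / 2) * (N : ℝ) ^ (η / 2) := by
      rw [← Real.rpow_add hN0]
      congr 1
      ring
    have h6 : (1 : ℝ) ≤ (N : ℝ) ^ (η / 2) := Real.one_le_rpow hNr (by positivity)
    have h7 : (N : ℝ) ^ (η / 2) * (1 / Real.log (1 + t) + 1) ≤ (N : ℝ) ^ (η / 2) * (N : ℝ) ^ (η / 2) := by gcongr
    rw [h5]
    nlinarith
  have ha' : a % r ∈ (range r).filter (fun a => a.Coprime r) := by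
    refine mem_filter.2 ⟨mem_range.2 (Nat.mod_lt _ (by omega)), ?_⟩
    have h4 : Nat.gcd (a % r) r = Nat.gcd r a := by rw [← Nat.gcd_rec]
    have h5 : Nat.gcd r a = 1 := by
      rw [Nat.gcd_comm]
      exact ha
    exact h4.trans h5
  have h4 := hN (a % r) ha' m (hx.trans hm1) hml P hdeg hlead fun j => (hco j).trans
    (Real.rpow_le_rpow_of_exponent_le hNr (by linarith))
  rw [number_eq]
  have h5 : (1 / 3 - ε / 2 - ε / 2) * (N : ℝ) = (1 / 3 - ε) * N := by ring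
  rw [h5] at h4
  refine h4.trans ?_
  unfold cnP cn
  refine Nat.cast_le.2 (card_le_card ?_)
  intro n hn
  simp only [mem_filter] at hn ⊢
  refine ⟨hn.1, ?_⟩
  have h6 := hn.2
  unfold Many at h6 ⊢
  have h7 : (x : ℝ) ^ (1 - δ) ≤ ((sca t m : ℕ) : ℝ) ^ (1 - d) := by
    calc (x : ℝ) ^ (1 - δ) ≤ (x : ℝ) ^ (1 - d) := Real.rpow_le_rpow_of_exponent_le hx1 (by linarith)
      _ ≤ ((sca t m : ℕ) : ℝ) ^ (1 - d) := Real.rpow_le_rpow (by positivity) (by exact_mod_cast hm1) (by linarith)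
  refine h7.trans (h6.trans ?_)
  rw [pairs_mod s r a]
  refine Nat.cast_le.2 (pairs_mono hm1 ?_ _ _ _)
  have h8 : (1 + t) * ((sca t m : ℕ) : ℝ) ≤ (1 + t) * ((1 + 2 * t) * x) := by gcongr
  have h9 : (1 + t) * (1 + 2 * t) ≤ 1 + s := by nlinarith
  nlinarith

end Pool.Agent.Results.MP_b51559_nt.DifferencesAlongRealMultiples
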