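import Pool.Agent.Q250.NP.NatRow

/-!
# Almost twin primes in narrow progressions in all parts of the interval `(n + 4, 2 ^ (n + 4))`
-/

set_option autoImplicit false

namespace Pool.Agent.Results.MP_b51559_nt.ProgressionsInTheInterval

open Finset Filter Polynomial
open Pool.Agent.Q250.NP
open Pool.Agent.Q253.Line (W NFD)

/-- the member of the pair `(p, p + 2)` which is asked to be prime -/
def primeMember (b : Bool) (p : ℕ) : ℕ := if b then p else p + 2

/-- the other member -/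
def otherMember (b : Bool) (p : ℕ) : ℕ := if b then p + 2 else p

open Classical in
/-- the `p` with `Y < p < 2 Y`, one member of `(p, p + 2)` prime and all prime factors of the other one larger than
`Y ^ (1/t)` -/
noncomputable def Good (b : Bool) (t Y : ℕ) : Finset ℕ :=
  (Ioo Y (2 * Y)).filter (fun p : ℕ => (primeMember b p).Prime ∧
    ∀ r : ℕ, r.Prime → r ∣ otherMember b p → (Y : ℝ) ^ (1 / (t : ℝ)) < r)

theorem Good_eq (b : Bool) (t Y : ℕ) : Good b t Y = T (primeMember b) (fun _ : Fin 1 => otherMember b) t Y := by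
  classical
  ext q
  unfold Good T
  rw [mem_filter, mem_filter]
  constructor
  · rintro ⟨h0, h1, h2⟩
    exact ⟨h0, h1, fun _ => h2⟩
  · rintro ⟨h0, h1, h2⟩
    exact ⟨h0, h1, h2 0⟩

theorem rep_true {n : ℕ} (hn : 4 ≤ n) : Rep (m := 1) 1 2 n 1 0 (primeMember true) (fun _ => otherMember true)
    (fun _ => C 1 * X + C 2) := by
  constructor
  · rw [Fin.prod_univ_one]
    exact natDegree_linear_le
  · intro p hp
    refine ⟨-1, ?_⟩
    rw [Fin.prod_univ_one]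
    simp only [eval_mul, eval_add, eval_C, eval_X]
    norm_num
    exact Int.natCast_dvd.not.2 (by simpa using hp.one_lt.ne')
  · intro y h1 h2
    simp only [primeMember, if_true]
    refine ⟨by simp, h1⟩
  · intro y h1 h2 i
    simp only [otherMember, if_true, eval_mul, eval_add, eval_C, eval_X]
    omega
  · intro y h1 h2 i
    simp only [otherMember, if_true]
    have : 4 * n ≤ n ^ 2 := by nlinarith
    refine ⟨by omega, by omega⟩

theorem rep_false {n : ℕ} (hn : 4 ≤ n) : Rep (m := 1) 1 2 n 1 2 (primeMember false) (fun _ => otherMember false)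
    (fun _ => X) := by
  constructor
  · rw [Fin.prod_univ_one]
    exact natDegree_X_le
  · intro p hp
    refine ⟨-1, ?_⟩
    rw [Fin.prod_univ_one]
    simp only [eval_mul, eval_add, eval_C, eval_X]
    norm_num
    exact Int.natCast_dvd.not.2 (by simpa using hp.one_lt.ne')
  · intro y h1 h2
    simp only [primeMember, Bool.false_eq_true, if_false]
    refine ⟨by omega, by omega⟩
  · intro y h1 h2 i
    simp only [otherMember, Bool.false_eq_true, if_false, eval_X]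
    omega
  · intro y h1 h2 i
    simp only [otherMember, Bool.false_eq_true, if_false]
    have : 4 * n ≤ n ^ 2 := by nlinarith
    refine ⟨by omega, by omega⟩

/-- the statements about the window `(Y, 2 Y)` -/
theorem window : ∃ t : ℕ, 1 ≤ t ∧ ∃ c : ℝ, 0 < c ∧ ∀ b : Bool,
    (∃ N₀ : ℕ, ∀ Y : ℕ, N₀ ≤ Y → c * (Y / Real.log Y ^ 2) ≤ ((Good b t Y).card : ℝ)) ∧
    (∀ (L : ℕ) (δ : ℝ), 0 < δ → ∃ D N₀ : ℕ, ∀ Y : ℕ, N₀ ≤ Y → ∀ S ⊆ Good b t Y, δ * ((Good b t Y).card : ℝ) ≤ S.card →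
      ∃ a d : ℕ, 1 ≤ d ∧ (d : ℝ) ≤ Real.log Y ^ D ∧ ∀ j < L, a + j * d ∈ S) ∧
    (∀ (L k : ℕ), 1 ≤ k → ∃ D N₀ : ℕ, ∀ Y : ℕ, N₀ ≤ Y → ∀ col : ℕ → Fin k, ∃ (s : ℕ) (κ : Fin k) (a d : ℕ),
      1 ≤ s ∧ s ≤ 2 * t ∧ 1 ≤ d ∧ (d : ℝ) ≤ Real.log Y ^ D ∧ ∀ j < L,
        a + j * d ∈ Good b t Y ∧ col (a + j * d) = κ ∧ (otherMember b (a + j * d)).primeFactorsList.length = s) := by
  classical
  obtain ⟨t, ht, H⟩ := natRow 1 1 2
  obtain ⟨cT, hcT, ⟨N1, T1⟩, T2, T3⟩ := H 1 0 (by norm_num)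
  obtain ⟨cF, hcF, ⟨N2, F1⟩, F2, F3⟩ := H 1 2 (by norm_num)
  have hcnt : ∀ (c : ℝ) (Y : ℕ) (W0 : ℝ), 0 < c → 4 ≤ Y → c / Real.log Y ^ 2 ≤ W0 →
      ∀ G : ℝ, c * (Y * W0) ≤ G → c ^ 2 * (Y / Real.log Y ^ 2) ≤ G := by
    intro c Y W0 hc hN hW G hG
    refine le_trans ?_ hG
    calc c ^ 2 * (Y / Real.log Y ^ 2) = c * (Y * (c / Real.log Y ^ 2)) := by ring
      _ ≤ _ := by
          apply mul_le_mul_of_nonneg_left _ hc.le
          exact mul_le_mul_of_nonneg_left hW (by positivity)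
  refine ⟨t, ht, min (cT ^ 2) (cF ^ 2), by positivity, ?_⟩
  intro b
  refine ⟨?_, ?_, ?_⟩
  · cases b
    · refine ⟨max N2 4, fun Y hY => ?_⟩
      have h4 : 4 ≤ Y := (le_max_right _ _).trans hY
      obtain ⟨g1, g2⟩ := F1 Y ((le_max_left _ _).trans hY) _ _ _ (rep_false h4)
      rw [Good_eq]
      refine le_trans ?_ (hcnt cF Y _ hcF h4 g1 _ g2)
      exact mul_le_mul_of_nonneg_right (min_le_right _ _) (by positivity)
    · refine ⟨max N1 4, fun Y hY => ?_⟩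
      have h4 : 4 ≤ Y := (le_max_right _ _).trans hY
      obtain ⟨g1, g2⟩ := T1 Y ((le_max_left _ _).trans hY) _ _ _ (rep_true h4)
      rw [Good_eq]
      refine le_trans ?_ (hcnt cT Y _ hcT h4 g1 _ g2)
      exact mul_le_mul_of_nonneg_right (min_le_left _ _) (by positivity)
  · intro L δ hδ
    cases b
    · obtain ⟨D, N0, h⟩ := F2 L δ hδ
      refine ⟨D, max N0 4, fun Y hY S hS hSc => ?_⟩
      rw [Good_eq] at hS hSc
      exact h Y ((le_max_left _ _).trans hY) _ _ _ (rep_false ((le_max_right _ _).trans hY)) S hS hSc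
    · obtain ⟨D, N0, h⟩ := T2 L δ hδ
      refine ⟨D, max N0 4, fun Y hY S hS hSc => ?_⟩
      rw [Good_eq] at hS hSc
      exact h Y ((le_max_left _ _).trans hY) _ _ _ (rep_true ((le_max_right _ _).trans hY)) S hS hSc
  · intro L k hk
    cases b
    · obtain ⟨D, N0, h⟩ := F3 L k hk
      refine ⟨D, max N0 4, fun Y hY col => ?_⟩
      obtain ⟨s, κ, a, d, hs, hd1, hd2, h3⟩ := h Y ((le_max_left _ _).trans hY) _ _ _
        (rep_false ((le_max_right _ _).trans hY)) col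
      refine ⟨s 0, κ, a, d, (hs 0).1, by have := (hs 0).2; omega, hd1, hd2, fun j hj => ?_⟩
      obtain ⟨h4, h5, h6⟩ := h3 j hj
      rw [← Good_eq] at h4
      exact ⟨h4, h5, h6 0⟩
    · obtain ⟨D, N0, h⟩ := T3 L k hk
      refine ⟨D, max N0 4, fun Y hY col => ?_⟩
      obtain ⟨s, κ, a, d, hs, hd1, hd2, h3⟩ := h Y ((le_max_left _ _).trans hY) _ _ _
        (rep_true ((le_max_right _ _).trans hY)) col
      refine ⟨s 0, κ, a, d, (hs 0).1, by have := (hs 0).2; omega, hd1, hd2, fun j hj => ?_⟩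
      obtain ⟨h4, h5, h6⟩ := h3 j hj
      rw [← Good_eq] at h4
      exact ⟨h4, h5, h6 0⟩

/-- **Narrow progressions in all parts of the interval of the question.** There are `t ≥ 1` and `c > 0` such that for both
choices `b` of the member of the pair `(p, p + 2)` which is asked to be prime:

(0) for `n + 4 ≤ Y ≤ 2 ^ (n + 3)` the pairs with `Y < p < 2 Y` lie in the interval `(n + 4, 2 ^ (n + 4))` of the question;

(1) for all large `n` and ALL these `Y` there are at least `c Y / log ^ 2 Y` pairs with `Y < p < 2 Y`, one member prime and all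
prime factors of the other one larger than `Y ^ (1/t)`;

(2) for all `L` and `δ > 0` there is `D` such that for all large `n` and ALL these `Y` every set of such `p` of relative density
`δ` in `(Y, 2 Y)` contains `L` terms of an arithmetic progression with difference `d ≤ log ^ D Y ≤ (n + 4) ^ D`: at most a power
of the left end of the interval of the question;

(3) for all `L` and `k` there is `D` such that for all large `n`, ALL these `Y` and every colouring of the integers in `k` colours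
there are `s ≤ 2 t` and `L` such `p ∈ (Y, 2 Y)` of one colour in a progression with difference `d ≤ log ^ D Y ≤ (n + 4) ^ D`, for
which the other member is a product of exactly `s` primes. -/
theorem result : ∃ t : ℕ, 1 ≤ t ∧ ∃ c : ℝ, 0 < c ∧ ∀ b : Bool,
    (∀ n Y : ℕ, n + 4 ≤ Y → Y ≤ 2 ^ (n + 3) → ∀ p ∈ Good b t Y, n + 4 < p ∧ p < 2 ^ (n + 4)) ∧
    (∃ n₀ : ℕ, ∀ n : ℕ, n₀ ≤ n → ∀ Y : ℕ, n + 4 ≤ Y → Y ≤ 2 ^ (n + 3) →
      c * (Y / Real.log Y ^ 2) ≤ ((Good b t Y).card : ℝ)) ∧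
    (∀ (L : ℕ) (δ : ℝ), 0 < δ → ∃ D n₀ : ℕ, ∀ n : ℕ, n₀ ≤ n → ∀ Y : ℕ, n + 4 ≤ Y → Y ≤ 2 ^ (n + 3) →
      ∀ S ⊆ Good b t Y, δ * ((Good b t Y).card : ℝ) ≤ S.card →
        ∃ a d : ℕ, 1 ≤ d ∧ (d : ℝ) ≤ Real.log Y ^ D ∧ d ≤ (n + 4) ^ D ∧ ∀ j < L, a + j * d ∈ S) ∧
    (∀ (L k : ℕ), 1 ≤ k → ∃ D n₀ : ℕ, ∀ n : ℕ, n₀ ≤ n → ∀ Y : ℕ, n + 4 ≤ Y → Y ≤ 2 ^ (n + 3) →
      ∀ col : ℕ → Fin k, ∃ (s : ℕ) (κ : Fin k) (a d : ℕ),
        1 ≤ s ∧ s ≤ 2 * t ∧ 1 ≤ d ∧ (d : ℝ) ≤ Real.log Y ^ D ∧ d ≤ (n + 4) ^ D ∧ ∀ j < L,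
          a + j * d ∈ Good b t Y ∧ col (a + j * d) = κ ∧ (otherMember b (a + j * d)).primeFactorsList.length = s) := by
  classical
  obtain ⟨t, ht, c, hc, H⟩ := window
  have hpow : ∀ n Y D d : ℕ, n + 4 ≤ Y → Y ≤ 2 ^ (n + 3) → (d : ℝ) ≤ Real.log Y ^ D → d ≤ (n + 4) ^ D := by
    intro n Y D d h1 h2 h3
    have hY1 : (1 : ℝ) ≤ Y := by exact_mod_cast (by omega : 1 ≤ Y)
    have h4 : Real.log Y ≤ n + 4 := by
      have h5 : (Y : ℝ) ≤ 2 ^ (n + 3) := by exact_mod_cast h2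
      calc Real.log Y ≤ Real.log (2 ^ (n + 3)) := Real.log_le_log (by linarith) h5
        _ = (n + 3) * Real.log 2 := by rw [Real.log_pow]; push_cast; ring
        _ ≤ (n + 3) * 1 := by
            apply mul_le_mul_of_nonneg_left _ (by positivity)
            have := Real.log_two_lt_d9
            linarith
        _ ≤ n + 4 := by linarith
    have h6 : (d : ℝ) ≤ ((n : ℝ) + 4) ^ D := h3.trans (pow_le_pow_left₀ (Real.log_nonneg hY1) h4 D)
    exact_mod_cast h6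
  refine ⟨t, ht, c, hc, fun b => ?_⟩
  obtain ⟨⟨N1, h1⟩, h2, h3⟩ := H b
  refine ⟨?_, ⟨N1, fun n hn Y hY1 hY2 => h1 Y (by omega)⟩, ?_, ?_⟩
  · intro n Y hY1 hY2 p hp
    unfold Good at hp
    rw [mem_filter, mem_Ioo] at hp
    have h4 : 2 ^ (n + 4) = 2 * 2 ^ (n + 3) := by ring
    omega
  · intro L δ hδ
    obtain ⟨D, N0, h⟩ := h2 L δ hδ
    refine ⟨D, N0, fun n hn Y hY1 hY2 S hS hSc => ?_⟩
    obtain ⟨a, d, g1, g2, g3⟩ := h Y (by omega) S hS hSc
    exact ⟨a, d, g1, g2, hpow n Y D d hY1 hY2 g2, g3⟩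
  · intro L k hk
    obtain ⟨D, N0, h⟩ := h3 L k hk
    refine ⟨D, N0, fun n hn Y hY1 hY2 col => ?_⟩
    obtain ⟨s, κ, a, d, g1, g2, g3, g4, g5⟩ := h Y (by omega) col
    exact ⟨s, κ, a, d, g1, g2, g3, g4, hpow n Y D d hY1 hY2 g4, g5⟩

end Pool.Agent.Results.MP_b51559_nt.ProgressionsInTheInterval
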