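import Mathlib
import Pool.Agent.Q263.SW.Mer

/-!
# Missing and almost missing integers with restricted digits, in patterns

A positive integer `m` is *missing* if it is not of the form `6 x y ± x ± y` with integers
`x ≥ y ≥ 1`, that is, if `6 m - 1` and `6 m + 1` are both prime. Call `m` *almost missing*, with
parameters `R`, `K`, `z`, if `(6 m - 1) (6 m + 1)` has at most `R` prime factors, counted with
multiplicity, and all of them are either at most `K` or larger than `z`.

Fix a base `b ≥ 2` and a nonempty finite set `H` of nonnegative integers (for example `H = {0}`).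
For `k ≥ 1` choose for every position `i < k` a set `D i` of at least two digits, in any way
(the sets may depend on the position and on `k`), and let `S` be the set of the integers
`0 ≤ n < b ^ k` whose `i`-th digit is in `D i` for every `i`. So `S` may have only `2 ^ k`
elements, a small power of `b ^ k`.

There are `R`, `K`, `L` and `0 < c ≤ C`, which depend on `b` and `H` only, such that for all large
`k` and all choices of the sets of digits:

* the number of the `n ∈ S` such that `n + h` is almost missing for every `h ∈ H`, with the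
  parameters `R`, `K` and `z = b ^ ⌊k / L⌋`, lies between `c |S| / k ^ (2 |H|)` and
  `C |S| / k ^ (2 |H|)`;
* the number of the `n ∈ S` such that `n + h` is missing for every `h ∈ H` is at most
  `C |S| / k ^ (2 |H|)`.

This is the order predicted by the conjecture of Hardy and Littlewood (for admissible patterns).

Idea of the proof: a sieve for the integers of `S` in a fixed residue class modulo a fixed
integer `q`. The exponential sum of `S` at `a / q + h / d`, `d` squarefree and coprime to `b! q`,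
is a product of factors which depend on the distance of `b ^ i (a / q + h / d)` to the fractions
with denominators `< b`; a block of `log d` factors contains one which is small, and a mean value
over all well spaced points for blocks of length `2 log_b Y` gives, on average over `d ≤ Y =
b ^ (δ k)`, a saving `exp (- c √k)`. The residue class is chosen by the pigeonhole principle such
that no high power of a small prime divides the values; for this one needs that the values of a
polynomial of degree `κ` are divisible by `p ^ (e + κ t)` only in `κ` residue classes modulo `p ^ t`,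
and that `S` has at most `2 |S| / 2 ^ i` elements in a residue class modulo `Q ≥ b ^ i`.
-/

set_option autoImplicit false

namespace Pool.Agent.Results.MP_b51559_nt.RestrictedDigits

open Finset Polynomial

/-- The integers `0 ≤ n < b ^ k` whose `i`-th digit in base `b` belongs to `D i`, for all `i < k`. -/
def Restricted (b k : ℕ) (D : Fin k → Finset ℕ) : Finset ℕ :=
  (Finset.range (b ^ k)).filter (fun n => ∀ i : Fin k, n / b ^ (i : ℕ) % b ∈ D i)

/-- Each `D i` is a set of at least two digits. -/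
def DigitSets (b k : ℕ) (D : Fin k → Finset ℕ) : Prop :=
  ∀ i, (∀ d ∈ D i, d < b) ∧ 2 ≤ (D i).card

/-- `m` is a positive integer which is not of the form `6 x y ± x ± y` with integers
`x ≥ y ≥ 1`. -/
def Missing (m : ℕ) : Prop :=
  0 < m ∧ ¬ ∃ x y : ℕ, 1 ≤ y ∧ y ≤ x ∧
    (m = 6 * x * y + x + y ∨ m + y = 6 * x * y + x ∨ m + x = 6 * x * y + y ∨
      m + x + y = 6 * x * y)

/-- `m` is positive and `(6 m - 1) (6 m + 1)` has at most `R` prime factors, counted with
multiplicity, each of which is at most `K` or larger than `z`. -/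
def AlmostMissing (R K z m : ℕ) : Prop :=
  0 < m ∧ ((6 * m - 1) * (6 * m + 1)).primeFactorsList.length ≤ R ∧
    ∀ p, p.Prime → p ∣ (6 * m - 1) * (6 * m + 1) → p ≤ K ∨ z < p

/-- factors prime to 6 -/
lemma six (u v w : ℕ) (hw : u * v = w) (h : w % 6 = 1 ∨ w % 6 = 5) :
    (u % 6 = 1 ∨ u % 6 = 5) ∧ (v % 6 = 1 ∨ v % 6 = 5) := by
  have h1 : (u % 6) * (v % 6) % 6 = w % 6 := by rw [← hw, Nat.mul_mod u v 6]
  have hu : u % 6 < 6 := Nat.mod_lt _ (by norm_num)
  have hv : v % 6 < 6 := Nat.mod_lt _ (by norm_num)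
  generalize u % 6 = a at h1 hu ⊢
  generalize v % 6 = c at h1 hv ⊢
  interval_cases a <;> interval_cases c <;> omega

lemma not_prime_split (w : ℕ) (hw : 1 < w) (h : ¬ w.Prime) : ∃ u v : ℕ, 1 < u ∧ 1 < v ∧ u * v = w := by
  obtain ⟨v, hv⟩ := Nat.minFac_dvd w
  have h1 : w.minFac < w := (Nat.not_prime_iff_minFac_lt (by omega)).1 h
  refine ⟨w.minFac, v, (Nat.minFac_prime (by omega)).one_lt, ?_, hv.symm⟩
  by_contra h3
  have h4 : v = 0 ∨ v = 1 := by omega
  rcases h4 with h4 | h4
  · rw [h4, mul_zero] at hv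
    omega
  · rw [h4, mul_one] at hv
    omega

/-- missing integers are centres of twin primes -/
lemma missing_prime (m : ℕ) (hm : Missing m) : (6 * m - 1).Prime ∧ (6 * m + 1).Prime := by
  obtain ⟨h0, hno⟩ := hm
  constructor
  · by_contra h
    obtain ⟨u, v, hu, hv, huv⟩ := not_prime_split (6 * m - 1) (by omega) h
    obtain ⟨h1, h2⟩ := six u v _ huv (by omega)
    have key : ∀ x y : ℕ, 1 ≤ x → 1 ≤ y → (6 * x + 1) * (6 * y - 1) = 6 * m - 1 → False := by
      intro x y hx hy hxy
      obtain ⟨y', rfl⟩ : ∃ y', y = y' + 1 := ⟨y - 1, by omega⟩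
      have e1 : 6 * (y' + 1) - 1 = 6 * y' + 5 := by omega
      rw [e1] at hxy
      have e2 : 6 * m = 36 * (x * y') + 30 * x + 6 * y' + 6 := by
        have : (6 * x + 1) * (6 * y' + 5) = 36 * (x * y') + 30 * x + 6 * y' + 5 := by ring
        omega
      rcases Nat.le_total (y' + 1) x with hle | hle
      · apply hno
        refine ⟨x, y' + 1, hy, hle, Or.inr (Or.inr (Or.inl ?_))⟩
        have : 6 * x * (y' + 1) = 6 * (x * y') + 6 * x := by ring
        omega
      · apply hno
        refine ⟨y' + 1, x, hx, hle, Or.inr (Or.inl ?_)⟩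
        have : 6 * (y' + 1) * x = 6 * (x * y') + 6 * x := by ring
        omega
    have h3 : (u % 6) * (v % 6) % 6 = 5 := by
      rw [← Nat.mul_mod, huv]
      omega
    rcases h1 with h1 | h1 <;> rcases h2 with h2 | h2
    · rw [h1, h2] at h3
      omega
    · apply key (u / 6) (v / 6 + 1) (by omega) (by omega)
      rw [← huv]
      congr 1 <;> omega
    · apply key (v / 6) (u / 6 + 1) (by omega) (by omega)
      rw [← huv, mul_comm]
      congr 1 <;> omega
    · rw [h1, h2] at h3
      omega
  · by_contra h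
    obtain ⟨u, v, hu, hv, huv⟩ := not_prime_split (6 * m + 1) (by omega) h
    obtain ⟨h1, h2⟩ := six u v _ huv (by omega)
    have h3 : (u % 6) * (v % 6) % 6 = 1 := by
      rw [← Nat.mul_mod, huv]
      omega
    have key1 : ∀ x y : ℕ, 1 ≤ x → 1 ≤ y → (6 * x + 1) * (6 * y + 1) = 6 * m + 1 → y ≤ x → False := by
      intro x y hx hy hxy hle
      apply hno
      refine ⟨x, y, hy, hle, Or.inl ?_⟩
      have e1 : (6 * x + 1) * (6 * y + 1) = 6 * (6 * x * y) + 6 * x + 6 * y + 1 := by ring
      omega
    have key2 : ∀ x y : ℕ, (6 * x + 5) * (6 * y + 5) = 6 * m + 1 → y ≤ x → False := by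
      intro x y hxy hle
      apply hno
      refine ⟨x + 1, y + 1, by omega, by omega, Or.inr (Or.inr (Or.inr ?_))⟩
      have e1 : (6 * x + 5) * (6 * y + 5) = 36 * (x * y) + 30 * x + 30 * y + 25 := by ring
      have e2 : 6 * (x + 1) * (y + 1) = 6 * (x * y) + 6 * x + 6 * y + 6 := by ring
      omega
    rcases h1 with h1 | h1 <;> rcases h2 with h2 | h2
    · have e1 : (6 * (u / 6) + 1) * (6 * (v / 6) + 1) = 6 * m + 1 := by
        rw [← huv]
        congr 1 <;> omega
      rcases Nat.le_total (v / 6) (u / 6) with hle | hle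
      · exact key1 _ _ (by omega) (by omega) e1 hle
      · exact key1 _ _ (by omega) (by omega) (by rw [mul_comm]; exact e1) hle
    · rw [h1, h2] at h3
      omega
    · rw [h1, h2] at h3
      omega
    · have e1 : (6 * (u / 6) + 5) * (6 * (v / 6) + 5) = 6 * m + 1 := by
        rw [← huv]
        congr 1 <;> omega
      rcases Nat.le_total (v / 6) (u / 6) with hle | hle
      · exact key2 _ _ e1 hle
      · exact key2 _ _ (by rw [mul_comm]; exact e1) hle

/-- the linear polynomials -/
noncomputable def fl (i : ℕ × ℤ) : ℤ[X] := C 6 * X + C (6 * (i.1 : ℤ) + i.2)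

lemma fl_eval (i : ℕ × ℤ) (x : ℤ) : (fl i).eval x = 6 * (x + i.1) + i.2 := by
  unfold fl
  rw [eval_add, eval_mul, eval_C, eval_X, eval_C]
  ring

open Classical in
theorem result : ∀ b : ℕ, 2 ≤ b → ∀ H : Finset ℕ, H.Nonempty →
    ∃ (R K L k₀ : ℕ) (c C : ℝ), 1 ≤ L ∧ 0 < c ∧ ∀ k : ℕ, k₀ ≤ k →
      ∀ D : Fin k → Finset ℕ, DigitSets b k D →
      (c * (Restricted b k D).card / (k : ℝ) ^ (2 * H.card) ≤
        (((Restricted b k D).filter
          (fun n => ∀ h ∈ H, AlmostMissing R K (b ^ (k / L)) (n + h))).card : ℝ) ∧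
      (((Restricted b k D).filter
          (fun n => ∀ h ∈ H, AlmostMissing R K (b ^ (k / L)) (n + h))).card : ℝ) ≤
        C * (Restricted b k D).card / (k : ℝ) ^ (2 * H.card)) ∧
      (((Restricted b k D).filter (fun n => ∀ h ∈ H, Missing (n + h))).card : ℝ) ≤
        C * (Restricted b k D).card / (k : ℝ) ^ (2 * H.card) := by
  intro b hb H hH
  set s : Finset (ℕ × ℤ) := H ×ˢ ({1, -1} : Finset ℤ) with hs
  have hsc : s.card = 2 * H.card := by
    rw [hs, Finset.card_product]
    have : ({1, -1} : Finset ℤ).card = 2 := by decide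
    rw [this, mul_comm]
  have hsne : s.Nonempty := by
    obtain ⟨h, hh⟩ := hH
    exact ⟨(h, 1), by rw [hs, Finset.mem_product]; exact ⟨hh, by simp⟩⟩
  have hmem : ∀ i ∈ s, i.1 ∈ H ∧ (i.2 = 1 ∨ i.2 = -1) := by
    intro i hi
    rw [hs, Finset.mem_product] at hi
    refine ⟨hi.1, ?_⟩
    have := hi.2
    simpa using this
  obtain ⟨R, K, L, k₀, c, C, hL, hc, hmain⟩ := Pool.Agent.Q263.SW.both hb s hsne fl
    (fun i j => 6 * ((i.1 : ℤ) - j.1) + (i.2 - j.2)) (by
      intro i hi j hj hij
      have h1 := (hmem i hi).2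
      have h2 := (hmem j hj).2
      constructor
      · intro h3
        apply hij
        have h4 : (i.1 : ℤ) = j.1 ∧ i.2 = j.2 := by omega
        exact Prod.ext (by exact_mod_cast h4.1) h4.2
      · intro p x _ h3 h4
        rw [fl_eval] at h3 h4
        have h5 := dvd_sub h3 h4
        have e : 6 * (x + (i.1 : ℤ)) + i.2 - (6 * (x + (j.1 : ℤ)) + j.2) =
            6 * ((i.1 : ℤ) - j.1) + (i.2 - j.2) := by ring
        rwa [e] at h5) (by
      intro i hi
      have h1 := (hmem i hi).2
      constructor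
      · unfold fl
        apply irreducible_C_mul_X_add_C (by norm_num)
        apply IsCoprime.isRelPrime
        refine ⟨-(i.2 * i.1), i.2, ?_⟩
        rcases h1 with h1 | h1 <;> rw [h1] <;> ring
      · unfold fl
        rw [natDegree_linear (by norm_num)]
        exact one_pos)
  rw [hsc] at hmain
  refine ⟨R, K, L, k₀ + 1, c, C + 1, hL, hc, fun k hk D hD => ?_⟩
  obtain ⟨h1, h2, h3, h4⟩ := hmain k (by omega) D (fun i => (hD i).1) (fun i => (hD i).2)
  have eS : Pool.Agent.Q263.MD.Dig b k D = Restricted b k D := rfl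
  rw [eS] at h1 h2 h3
  set S := Restricted b k D with hS
  set z := b ^ (k / L) with hz
  have hk1 : (0 : ℝ) < k := by exact_mod_cast (by omega : 0 < k)
  -- the product
  have hev : ∀ (n : ℕ), ∀ h ∈ H, 0 < n + h →
      (6 * (n + h) - 1) * (6 * (n + h) + 1) ∣ ((∏ i ∈ s, fl i).eval (n : ℤ)).natAbs := by
    intro n h hh hpos
    have h5 : (((6 * (n + h) - 1) * (6 * (n + h) + 1) : ℕ) : ℤ) ∣ (∏ i ∈ s, fl i).eval (n : ℤ) := by
      rw [Polynomial.eval_prod, hs, Finset.prod_product]
      refine dvd_trans ?_ (Finset.dvd_prod_of_mem _ hh)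
      rw [Finset.prod_pair (by norm_num), fl_eval, fl_eval]
      have e : ((6 * (n + h) - 1 : ℕ) : ℤ) = 6 * ((n : ℤ) + h) - 1 := by omega
      rw [Nat.cast_mul, e]
      push_cast
      exact ⟨1, by ring⟩
    exact Int.natCast_dvd.1 h5
  have hup : ∀ n : ℕ, (∀ h ∈ H, ∀ p ∈ Pool.Agent.Q263.SV.Pr K z,
      ¬ p ∣ (6 * (n + h) - 1) * (6 * (n + h) + 1)) → (∀ h ∈ H, 0 < n + h) →
      ∀ p ∈ Pool.Agent.Q263.SV.Pr K z, ¬ (p : ℤ) ∣ (∏ i ∈ s, fl i).eval (n : ℤ) := by
    intro n hn hpos p hp hdvd
    have hpp := (Pool.Agent.Q263.SV.mem_Pr.1 hp).1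
    rw [Polynomial.eval_prod, (Nat.prime_iff_prime_int.1 hpp).dvd_finsetProd_iff] at hdvd
    obtain ⟨i, hi, hdvd⟩ := hdvd
    obtain ⟨hi1, hi2⟩ := hmem i hi
    apply hn i.1 hi1 p hp
    rw [fl_eval] at hdvd
    have h0 := hpos i.1 hi1
    rcases hi2 with h | h
    · rw [h] at hdvd
      apply Dvd.dvd.mul_left
      have e : (6 : ℤ) * ((n : ℤ) + i.1) + 1 = ((6 * (n + i.1) + 1 : ℕ) : ℤ) := by
        push_cast
        ring
      rw [e] at hdvd
      exact_mod_cast hdvd
    · rw [h] at hdvd
      apply Dvd.dvd.mul_right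
      have e : (6 : ℤ) * ((n : ℤ) + i.1) + -1 = ((6 * (n + i.1) - 1 : ℕ) : ℤ) := by omega
      rw [e] at hdvd
      exact_mod_cast hdvd
  have hSk : (0 : ℝ) ≤ S.card / (k : ℝ) ^ (2 * H.card) := by positivity
  have hC1 : C * (S.card : ℝ) / (k : ℝ) ^ (2 * H.card) + S.card / (k : ℝ) ^ (2 * H.card) =
      (C + 1) * S.card / (k : ℝ) ^ (2 * H.card) := by ring
  refine ⟨⟨?_, ?_⟩, ?_⟩
  · refine h1.trans (Nat.cast_le.2 (Finset.card_le_card ?_))
    intro n hn
    rw [Finset.mem_filter] at hn ⊢
    obtain ⟨hnS, hn1, hn0, hnR, hnp⟩ := hn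
    refine ⟨hnS, fun h hh => ?_⟩
    have hd := hev n h hh (by omega)
    refine ⟨by omega, ?_, fun p hp hpd => hnp p hp (hpd.trans hd)⟩
    refine le_trans ?_ hnR
    have hne : ((∏ i ∈ s, fl i).eval (n : ℤ)).natAbs ≠ 0 := Int.natAbs_ne_zero.2 hn0
    exact (Nat.primeFactorsList_sublist_of_dvd hd hne).length_le
  · rw [← hC1]
    refine le_trans ?_ (le_add_of_nonneg_right hSk)
    refine le_trans (Nat.cast_le.2 (Finset.card_le_card ?_)) h2
    intro n hn
    rw [Finset.mem_filter] at hn ⊢
    refine ⟨hn.1, hup n ?_ fun h hh => (hn.2 h hh).1⟩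
    intro h hh p hp hpd
    have h5 := (hn.2 h hh).2.2 p (Pool.Agent.Q263.SV.mem_Pr.1 hp).1 hpd
    have h6 := Pool.Agent.Q263.SV.mem_Pr.1 hp
    omega
  · rw [← hC1]
    have hsub : S.filter (fun n => ∀ h ∈ H, Missing (n + h)) ⊆
        (S.filter (fun n : ℕ => ∀ p ∈ Pool.Agent.Q263.SV.Pr K z,
          ¬ (p : ℤ) ∣ (∏ i ∈ s, fl i).eval (n : ℤ))) ∪ Finset.range z := by
      intro n hn
      rw [Finset.mem_filter] at hn
      rw [Finset.mem_union, Finset.mem_filter, Finset.mem_range]
      rcases Nat.lt_or_ge n z with hnz | hnz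
      · right
        exact hnz
      · left
        refine ⟨hn.1, hup n ?_ fun h hh => (hn.2 h hh).1⟩
        intro h hh p hp hpd
        obtain ⟨g1, g2⟩ := missing_prime _ (hn.2 h hh)
        have h6 := Pool.Agent.Q263.SV.mem_Pr.1 hp
        rcases (h6.1.dvd_mul).1 hpd with g | g
        · have := (Nat.prime_dvd_prime_iff_eq h6.1 g1).1 g
          omega
        · have := (Nat.prime_dvd_prime_iff_eq h6.1 g2).1 g
          omega
    have h5 := (Finset.card_le_card hsub).trans (Finset.card_union_le _ _)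
    rw [Finset.card_range] at h5
    have h6 : ((S.filter (fun n => ∀ h ∈ H, Missing (n + h))).card : ℝ) ≤
        ((S.filter (fun n : ℕ => ∀ p ∈ Pool.Agent.Q263.SV.Pr K z,
          ¬ (p : ℤ) ∣ (∏ i ∈ s, fl i).eval (n : ℤ))).card : ℝ) + z := by exact_mod_cast h5
    exact h6.trans (add_le_add h2 h3)

end Pool.Agent.Results.MP_b51559_nt.RestrictedDigits
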